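import Mathlib
import Pool.Agent.Y358.MM.Graph

/-!
# Chromatic polynomials are positive above a multiple of the second maximum degree

If no two vertices of a finite simple graph are joined by `D + 2` pairwise edge-disjoint paths
(in particular if all vertices but one have degree at most `D + 1`), then the chromatic polynomial
is positive at all real `q ≥ 3.79 D`.
-/

set_option autoImplicit false

namespace Pool.Agent.Results.MP_601de6_co.PositiveAboveMaxmaxflow

open Pool.Agent.Y358.MM Pool.Agent.H157R2.Menger Pool.Agent.H157R2.Chrom Module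
  Pool.Agent.H157R2.Mat

/-- Let `D ≥ 1`, and let `G` be a finite simple graph in which no two vertices are joined by
`D + 2` pairwise edge-disjoint paths, or in which all vertices but one have degree at most `D + 1`.
Then the chromatic polynomial of `G` is positive at all real `q ≥ 3.79 D`. -/
theorem result (D : ℕ) (hD : 1 ≤ D) (V : Type) [Fintype V] (G : SimpleGraph V)
    (hG : (∀ u v : V, u ≠ v → ¬ ∃ p : Fin (D + 2) → G.Walk u v,
          (∀ i, (p i).IsPath) ∧ Pairwise (fun i j => List.Disjoint (p i).edges (p j).edges)) ∨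
        (∃ w : V, ∀ v, v ≠ w → (G.neighborSet v).ncard ≤ D + 1))
    (P : Polynomial ℝ)
    (hP : ∀ n : ℕ, P.eval (n : ℝ) = ((Nat.card (G.Coloring (Fin n)) : ℕ) : ℝ))
    (q : ℝ) (hq : 3.79 * (D : ℝ) ≤ q) :
    0 < P.eval q := by
  classical
  rcases isEmpty_or_nonempty V with hV | hV
  · have h1 : P = 1 := by
      apply Polynomial.eq_of_infinite_eval_eq
      apply Set.Infinite.mono (s := Set.range (fun n : ℕ => (n : ℝ)))
      · rintro _ ⟨n, rfl⟩
        show P.eval (n : ℝ) = (1 : Polynomial ℝ).eval (n : ℝ)
        rw [hP n, Polynomial.eval_one]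
        have : Nat.card (G.Coloring (Fin n)) = 1 := by
          rw [Nat.card_eq_one_iff_unique]
          exact ⟨⟨fun a b => by ext x; exact isEmptyElim x⟩,
            ⟨SimpleGraph.Coloring.mk (fun x => isEmptyElim x) (fun {x} => isEmptyElim x)⟩⟩
        rw [this, Nat.cast_one]
      · exact Set.infinite_range_of_injective Nat.cast_injective
    rw [h1, Polynomial.eval_one]
    exact one_pos
  · have hcut : ∀ u v : V, u ≠ v → ∃ S : Finset V, u ∈ S ∧ v ∉ S ∧ (cut G S).card ≤ D + 1 := by
      rcases hG with hG | ⟨w, hw⟩
      · exact cuts_of_paths G (D + 1) hG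
      · refine cuts_of_degrees G (D + 1) w fun v hv => ?_
        have h1 := hw v hv
        rwa [Set.ncard_eq_toFinset_card', ← SimpleGraph.neighborFinset_def,
          SimpleGraph.card_neighborFinset_eq_degree] at h1
    have h1 := poly_eq G (P.map Complex.ofRealHom) (fun n => by
      rw [← Complex.ofReal_natCast, ← Complex.ofRealHom_eq_coe, Polynomial.eval_map_apply, hP n]
      simp) (q : ℂ)
    rw [← Complex.ofRealHom_eq_coe, Polynomial.eval_map_apply] at h1
    have h2 : P.eval q = ∑ A ∈ G.edgeFinset.powerset, (-1 : ℝ) ^ A.card *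
        q ^ (Fintype.card V - finrank (ZMod 2) (sp (ZMod 2) (inc : Sym2 V → V → ZMod 2) A)) := by
      apply Complex.ofReal_injective
      rw [← Complex.ofRealHom_eq_coe, h1]
      simp
    rw [h2]
    exact graph_real G D hD hcut q hq

end Pool.Agent.Results.MP_601de6_co.PositiveAboveMaxmaxflow
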